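import Pool.Agent.Helper91K1.PQ.Stm

set_option autoImplicit false

open MeasureTheory Filter Topology Finset

namespace Pool.Agent.Helper11X.PQ

open Pool.Agent.Helper91K1.PQ

theorem meas_mm (s : ℝ) (N : ℕ) : Measurable (mm s N) := by
  unfold mm
  exact Measurable.floor (by fun_prop)

theorem meas_S (s : ℝ) (N : ℕ) (A : Set ℤ) : MeasurableSet {x : ℝ × ℝ | mm s N x ∈ A} :=
  meas_mm s N (MeasurableSet.of_discrete)

theorem meas_box (b b' R : ℝ) : MeasurableSet (box b b' R) :=
  measurableSet_Icc.prod measurableSet_Icc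

theorem vol_box {b b' R : ℝ} (h : b ≤ b') (hR : 0 ≤ R) :
    volume.real (box b b' R) = 2 * R * (b' - b) := by
  unfold Pool.Agent.Helper91K1.PQ.box
  rw [Measure.real, Measure.volume_eq_prod, Measure.prod_prod, Real.volume_Icc, Real.volume_Icc,
    ENNReal.toReal_mul, ENNReal.toReal_ofReal (by linarith), ENNReal.toReal_ofReal (by linarith)]
  ring

theorem box_lt_top (b b' R : ℝ) : volume (box b b' R) < ⊤ :=
  (isCompact_Icc.prod isCompact_Icc).measure_lt_top

theorem int_ind (B S : Set (ℝ × ℝ)) (hS : MeasurableSet S) :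
    ∫ x, S.indicator (fun _ => (1 : ℝ)) x ∂(volume.restrict B) = volume.real (B ∩ S) := by
  have h := integral_indicator_one (μ := volume.restrict B) hS
  have h2 : (volume.restrict B).real S = volume.real (B ∩ S) := by
    rw [Measure.real, Measure.real, Measure.restrict_apply hS, Set.inter_comm]
  rw [← h2, ← h]
  rfl

theorem cheb (b b' R : ℝ) (F : Finset ℕ) (S : ℕ → Set (ℝ × ℝ)) (hS : ∀ N, MeasurableSet (S N))
    (a t : ℝ) (ht : 0 < t) :
    t ^ 2 * volume.real {x ∈ box b b' R | t ≤ a - ∑ N ∈ F, (S N).indicator (fun _ => (1 : ℝ)) x} ≤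
      ∑ N ∈ F, ∑ M ∈ F, volume.real (box b b' R ∩ (S N ∩ S M)) -
        2 * a * ∑ N ∈ F, volume.real (box b b' R ∩ S N) + a ^ 2 * volume.real (box b b' R) := by
  set B := box b b' R with hB
  have hfin : IsFiniteMeasure (volume.restrict B) :=
    ⟨by rw [Measure.restrict_apply_univ]; exact box_lt_top b b' R⟩
  set I : ℕ → ℝ × ℝ → ℝ := fun N => (S N).indicator (fun _ => (1 : ℝ)) with hI
  set J : ℕ → ℕ → ℝ × ℝ → ℝ := fun N M => (S N ∩ S M).indicator (fun _ => (1 : ℝ)) with hJ
  have hIi : ∀ N, Integrable (I N) (volume.restrict B) := fun N =>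
    (integrable_const (1 : ℝ)).indicator (hS N)
  have hJi : ∀ N M, Integrable (J N M) (volume.restrict B) := fun N M =>
    (integrable_const (1 : ℝ)).indicator ((hS N).inter (hS M))
  have hf : ∀ x, (a - ∑ N ∈ F, I N x) ^ 2 =
      ∑ N ∈ F, ∑ M ∈ F, J N M x - 2 * a * ∑ N ∈ F, I N x + a ^ 2 := by
    intro x
    have h1 : ∑ N ∈ F, ∑ M ∈ F, J N M x = (∑ N ∈ F, I N x) * ∑ M ∈ F, I M x := by
      rw [Finset.sum_mul_sum]
      refine Finset.sum_congr rfl fun N _ => Finset.sum_congr rfl fun M _ => ?_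
      simp only [hI, hJ, Set.indicator_apply, Set.mem_inter_iff]
      by_cases h1 : x ∈ S N <;> by_cases h2 : x ∈ S M <;> simp [h1, h2]
    rw [h1]
    ring
  have hsJ : Integrable (fun x => ∑ N ∈ F, ∑ M ∈ F, J N M x) (volume.restrict B) :=
    integrable_finsetSum _ fun N _ => integrable_finsetSum _ fun M _ => hJi N M
  have hsI : Integrable (fun x => ∑ N ∈ F, I N x) (volume.restrict B) :=
    integrable_finsetSum _ fun N _ => hIi N
  have hfi : Integrable (fun x => (a - ∑ N ∈ F, I N x) ^ 2) (volume.restrict B) := by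
    simp only [hf]
    exact (hsJ.sub (hsI.const_mul _)).add (integrable_const _)
  have hint : ∫ x, (a - ∑ N ∈ F, I N x) ^ 2 ∂(volume.restrict B) =
      ∑ N ∈ F, ∑ M ∈ F, volume.real (B ∩ (S N ∩ S M)) -
        2 * a * ∑ N ∈ F, volume.real (B ∩ S N) + a ^ 2 * volume.real B := by
    simp only [hf]
    have e1 : ∫ x, (∑ N ∈ F, ∑ M ∈ F, J N M x - 2 * a * ∑ N ∈ F, I N x) + a ^ 2
        ∂(volume.restrict B) = ∫ x, (∑ N ∈ F, ∑ M ∈ F, J N M x - 2 * a * ∑ N ∈ F, I N x)
        ∂(volume.restrict B) + ∫ _, a ^ 2 ∂(volume.restrict B) :=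
      integral_add (hsJ.sub (hsI.const_mul _)) (integrable_const _)
    have e2 : ∫ x, (∑ N ∈ F, ∑ M ∈ F, J N M x - 2 * a * ∑ N ∈ F, I N x)
        ∂(volume.restrict B) = ∫ x, (∑ N ∈ F, ∑ M ∈ F, J N M x) ∂(volume.restrict B) -
        ∫ x, 2 * a * ∑ N ∈ F, I N x ∂(volume.restrict B) :=
      integral_sub hsJ (hsI.const_mul _)
    have e3 : ∫ x, (∑ N ∈ F, ∑ M ∈ F, J N M x) ∂(volume.restrict B) =
        ∑ N ∈ F, ∑ M ∈ F, volume.real (B ∩ (S N ∩ S M)) := by
      rw [integral_finsetSum _ fun N _ => integrable_finsetSum _ fun M _ => hJi N M]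
      refine Finset.sum_congr rfl fun N _ => ?_
      rw [integral_finsetSum _ fun M _ => hJi N M]
      exact Finset.sum_congr rfl fun M _ => int_ind B _ ((hS N).inter (hS M))
    have e4 : ∫ x, 2 * a * ∑ N ∈ F, I N x ∂(volume.restrict B) =
        2 * a * ∑ N ∈ F, volume.real (B ∩ S N) := by
      rw [integral_const_mul, integral_finsetSum _ fun N _ => hIi N]
      congr 1
      exact Finset.sum_congr rfl fun N _ => int_ind B _ (hS N)
    have e5 : ∫ _, a ^ 2 ∂(volume.restrict B) = a ^ 2 * volume.real B := by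
      rw [integral_const, smul_eq_mul, mul_comm]
      congr 1
      rw [Measure.real, Measure.real, Measure.restrict_apply_univ]
    rw [e1, e2, e3, e4, e5]
  have hm := mul_meas_ge_le_integral_of_nonneg (μ := volume.restrict B)
    (f := fun x => (a - ∑ N ∈ F, I N x) ^ 2) (Eventually.of_forall fun x => sq_nonneg _) hfi (t ^ 2)
  rw [hint] at hm
  refine le_trans (mul_le_mul_of_nonneg_left ?_ (sq_nonneg t)) hm
  have hmeas : MeasurableSet {x | t ^ 2 ≤ (a - ∑ N ∈ F, I N x) ^ 2} := by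
    refine measurableSet_le measurable_const ?_
    refine Measurable.pow_const (Measurable.sub measurable_const ?_) 2
    exact Finset.measurable_fun_sum _ fun N _ => measurable_const.indicator (hS N)
  have h2 : (volume.restrict B).real {x | t ^ 2 ≤ (a - ∑ N ∈ F, I N x) ^ 2} =
      volume.real ({x | t ^ 2 ≤ (a - ∑ N ∈ F, I N x) ^ 2} ∩ B) := by
    rw [Measure.real, Measure.real, Measure.restrict_apply hmeas]
  rw [h2]
  refine measureReal_mono ?_ ?_
  · rintro x ⟨hx, hx2⟩
    exact ⟨pow_le_pow_left₀ ht.le hx2 2, hx⟩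
  · exact ((measure_mono Set.inter_subset_right).trans_lt (box_lt_top b b' R)).ne

end Pool.Agent.Helper11X.PQ
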