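import Pool.Agent.Helper11X.PQ.Cheb

set_option autoImplicit false

open MeasureTheory Filter Topology Finset

namespace Pool.Agent.Helper11X.PQ

open Pool.Agent.Helper91K1.PQ

theorem sum_inj_le (G : Finset ℕ) (X : ℕ) (f : ℕ → ℝ) (e : ℕ → ℕ) (hf : ∀ M ∈ G, f M = 1 / (e M : ℝ))
    (he : ∀ M ∈ G, 1 ≤ e M ∧ e M ≤ X) (hi : ∀ M ∈ G, ∀ M' ∈ G, e M = e M' → M = M') :
    ∑ M ∈ G, f M ≤ ∑ d ∈ Finset.Icc 1 X, (1 : ℝ) / d := by
  calc ∑ M ∈ G, f M = ∑ M ∈ G, (fun d : ℕ => (1 : ℝ) / d) (e M) := Finset.sum_congr rfl hf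
    _ = ∑ d ∈ G.image e, (1 : ℝ) / d := by
      rw [Finset.sum_image]
      intro M hM M' hM' h
      exact hi M hM M' hM' h
    _ ≤ _ := by
      refine Finset.sum_le_sum_of_subset_of_nonneg ?_ fun d _ _ => by positivity
      intro d hd
      obtain ⟨M, hM, rfl⟩ := Finset.mem_image.1 hd
      exact Finset.mem_Icc.2 (he M hM)

theorem harm (X N : ℕ) (hN : N ∈ Finset.Ioc X (2 * X)) :
    ∑ M ∈ (Finset.Ioc X (2 * X)).erase N, 1 / |(M : ℝ) - N| ≤ 2 * (1 + Real.log X) := by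
  have hh : ∑ d ∈ Finset.Icc 1 X, (1 : ℝ) / d ≤ 1 + Real.log X := by
    have := harmonic_le_one_add_log X
    rw [harmonic_eq_sum_Icc] at this
    push_cast at this
    simpa only [one_div] using this
  have hN' := Finset.mem_Ioc.1 hN
  have hsplit : (Finset.Ioc X (2 * X)).erase N =
      (Finset.Ioc X (2 * X)).filter (fun M => M < N) ∪ (Finset.Ioc X (2 * X)).filter (fun M => N < M) := by
    ext M
    simp only [Finset.mem_erase, Finset.mem_union, Finset.mem_filter, Finset.mem_Ioc]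
    omega
  have hdis : Disjoint ((Finset.Ioc X (2 * X)).filter (fun M => M < N))
      ((Finset.Ioc X (2 * X)).filter (fun M => N < M)) := by
    rw [Finset.disjoint_left]
    intro M h1 h2
    have h3 := (Finset.mem_filter.1 h1).2
    have h4 := (Finset.mem_filter.1 h2).2
    omega
  rw [hsplit, Finset.sum_union hdis]
  have h1 : ∑ M ∈ (Finset.Ioc X (2 * X)).filter (fun M => M < N), 1 / |(M : ℝ) - N| ≤
      ∑ d ∈ Finset.Icc 1 X, (1 : ℝ) / d := by
    refine sum_inj_le _ X _ (fun M => N - M) ?_ ?_ ?_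
    · intro M hM
      have h3 := (Finset.mem_filter.1 hM).2
      have h4 : (M : ℝ) < N := by exact_mod_cast h3
      rw [abs_of_neg (by linarith), Nat.cast_sub h3.le]
      congr 1
      ring
    · intro M hM
      have h3 := Finset.mem_filter.1 hM
      have h4 := Finset.mem_Ioc.1 h3.1
      have h5 := h3.2
      constructor <;> omega
    · intro M hM M' hM' hee
      have h3 := (Finset.mem_filter.1 hM).2
      have h4 := (Finset.mem_filter.1 hM').2
      have hee' : N - M = N - M' := hee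
      omega
  have h2 : ∑ M ∈ (Finset.Ioc X (2 * X)).filter (fun M => N < M), 1 / |(M : ℝ) - N| ≤
      ∑ d ∈ Finset.Icc 1 X, (1 : ℝ) / d := by
    refine sum_inj_le _ X _ (fun M => M - N) ?_ ?_ ?_
    · intro M hM
      have h3 := (Finset.mem_filter.1 hM).2
      have h4 : (N : ℝ) < M := by exact_mod_cast h3
      rw [abs_of_pos (by linarith), Nat.cast_sub h3.le]
    · intro M hM
      have h3 := Finset.mem_filter.1 hM
      have h4 := Finset.mem_Ioc.1 h3.1
      have h5 := h3.2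
      constructor <;> omega
    · intro M hM M' hM' hee
      have h3 := (Finset.mem_filter.1 hM).2
      have h4 := (Finset.mem_filter.1 hM').2
      have hee' : M - N = M' - N := hee
      omega
  linarith

/-- the second moment bound, in numbers -/
theorem pair_sum (X : ℕ) (hX : 1 ≤ X) (q : ℕ → ℕ → ℝ) (V a k : ℝ) (ha : 0 ≤ a) (hk : 0 ≤ k)
    (hd : ∀ N ∈ Finset.Ioc X (2 * X), q N N ≤ V)
    (ho : ∀ N ∈ Finset.Ioc X (2 * X), ∀ M ∈ Finset.Ioc X (2 * X), M ≠ N →
      q N M ≤ a + k * (1 / |(M : ℝ) - N|)) :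
    ∑ N ∈ Finset.Ioc X (2 * X), ∑ M ∈ Finset.Ioc X (2 * X), q N M ≤
      X * V + X * (X * a) + X * (k * (2 * (1 + Real.log X))) := by
  have hcard : (Finset.Ioc X (2 * X)).card = X := by rw [Nat.card_Ioc]; omega
  have h1 : ∀ N ∈ Finset.Ioc X (2 * X), ∑ M ∈ Finset.Ioc X (2 * X), q N M ≤
      V + (X * a + k * (2 * (1 + Real.log X))) := by
    intro N hN
    rw [← Finset.add_sum_erase _ _ hN]
    refine add_le_add (hd N hN) ?_
    calc ∑ M ∈ (Finset.Ioc X (2 * X)).erase N, q N M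
        ≤ ∑ M ∈ (Finset.Ioc X (2 * X)).erase N, (a + k * (1 / |(M : ℝ) - N|)) :=
          Finset.sum_le_sum fun M hM =>
            ho N hN M (Finset.mem_of_mem_erase hM) (Finset.ne_of_mem_erase hM)
      _ = ((Finset.Ioc X (2 * X)).erase N).card * a +
          k * ∑ M ∈ (Finset.Ioc X (2 * X)).erase N, 1 / |(M : ℝ) - N| := by
          rw [Finset.sum_add_distrib, Finset.sum_const, nsmul_eq_mul, Finset.mul_sum]
      _ ≤ X * a + k * (2 * (1 + Real.log X)) := by
          have h2 : ((((Finset.Ioc X (2 * X)).erase N).card : ℕ) : ℝ) ≤ X := by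
            have := Finset.card_erase_le (s := Finset.Ioc X (2 * X)) (a := N)
            rw [hcard] at this
            exact_mod_cast this
          exact add_le_add (mul_le_mul_of_nonneg_right h2 ha)
            (mul_le_mul_of_nonneg_left (harm X N hN) hk)
  calc _ ≤ ∑ N ∈ Finset.Ioc X (2 * X), (V + (X * a + k * (2 * (1 + Real.log X)))) :=
        Finset.sum_le_sum h1
    _ = _ := by
      rw [Finset.sum_const, hcard, nsmul_eq_mul]
      ring

theorem t_VAR : S_ONE → S_TWO → S_VAR := by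
  intro hone htwo b b' R κ ρ hb hbb hR hκ hκ1 hρ
  obtain ⟨V, hV⟩ : ∃ V : ℝ, V = 2 * R * (b' - b) := ⟨_, rfl⟩
  obtain ⟨C₂, hC₂⟩ : ∃ C₂ : ℝ, C₂ = 2 * (b' - b) + 6 * (R + 1) := ⟨_, rfl⟩
  have hbb' : 0 < b' - b := by linarith
  have hV0 : 0 < V := by rw [hV]; positivity
  have hC0 : 0 < C₂ := by rw [hC₂]; positivity
  obtain ⟨K, hK⟩ : ∃ K : ℝ, K = V + C₂ + 8 * (V + C₂) * (1 + 4 / κ) + 8 * R := ⟨_, rfl⟩
  have hK0 : 0 < K := by rw [hK]; positivity
  refine ⟨4 * K / ρ ^ 2, 1, fun X hX T hT hρT g A hA => ?_⟩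
  obtain ⟨x, hx⟩ : ∃ x : ℝ, x = (X : ℝ) := ⟨_, rfl⟩
  have hx1 : 1 ≤ x := by rw [hx]; exact_mod_cast hX
  have hx0 : 0 < x := by linarith
  obtain ⟨L, hLdef⟩ : ∃ L : ℕ, L = Lb κ X := ⟨_, rfl⟩
  rw [← hLdef] at hT hρT hA
  obtain ⟨η, hη⟩ : ∃ η : ℝ, η = x ^ (-(κ / 4)) := ⟨_, rfl⟩
  have hη0 : 0 < η := by rw [hη]; positivity
  have hη1 : η ≤ 1 := by
    rw [hη]
    exact Real.rpow_le_one_of_one_le_of_nonpos hx1 (by linarith)
  have hxη : 1 ≤ x * η := by
    have h1 : x * η = x ^ (1 - κ / 4) := by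
      rw [hη, sub_eq_add_neg, Real.rpow_add hx0, Real.rpow_one]
    rw [h1]
    exact Real.one_le_rpow hx1 (by linarith)
  have hLx : (L : ℝ) ≤ x * η ^ 4 := by
    have h1 : x * η ^ 4 = x ^ (1 - κ) := by
      rw [hη, ← Real.rpow_natCast, ← Real.rpow_mul hx0.le]
      nth_rewrite 1 [← Real.rpow_one x]
      rw [← Real.rpow_add hx0]
      congr 1
      push_cast
      ring
    rw [h1, hLdef, Lb, ← hx]
    exact Nat.floor_le (by positivity)
  have hL1 : 1 ≤ L := by
    rw [hLdef, Lb, ← hx]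
    exact Nat.le_floor (by exact_mod_cast Real.one_le_rpow hx1 (by linarith))
  have hL0 : (0 : ℝ) < L := by exact_mod_cast hL1
  have hη4 : η ^ 4 ≤ 1 := pow_le_one₀ hη0.le hη1
  have hLx' : (L : ℝ) ≤ x := hLx.trans (by nlinarith)
  have hlog : (1 + Real.log X) * η ≤ 1 + 4 / κ := by
    rw [← hx]
    have h1 : Real.log x ≤ x ^ (κ / 4) / (κ / 4) := Real.log_le_rpow_div hx0.le (by linarith)
    have h2 : x ^ (κ / 4) * η = 1 := by
      rw [hη, ← Real.rpow_add hx0]
      simp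
    have h3 : Real.log x * η ≤ 4 / κ := by
      calc Real.log x * η ≤ x ^ (κ / 4) / (κ / 4) * η := mul_le_mul_of_nonneg_right h1 hη0.le
        _ = (x ^ (κ / 4) * η) * (4 / κ) := by field_simp
        _ = 4 / κ := by rw [h2, one_mul]
    nlinarith
  have hlog0 : 0 ≤ 1 + Real.log X := by
    rw [← hx]
    have := Real.log_nonneg hx1
    linarith
  obtain ⟨p, hp⟩ : ∃ p : ℝ, p = (T : ℝ) / L := ⟨_, rfl⟩
  have hpρ : ρ ≤ p := by rw [hp, le_div_iff₀ hL0]; exact hρT
  have hp1 : p ≤ 1 := by rw [hp, div_le_one hL0]; exact_mod_cast hT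
  have hp0 : 0 < p := by linarith
  obtain ⟨S, hS⟩ : ∃ S : ℕ → Set (ℝ × ℝ), S = fun N => {y | mm (g N) N y ∈ A N} := ⟨_, rfl⟩
  have hSm : ∀ N, MeasurableSet (S N) := fun N => by rw [hS]; exact meas_S _ _ _
  have hsub : ∀ N, Sub L T (A N) := fun N k => (hA N k).le
  have hvol : volume.real (Pool.Agent.Helper91K1.PQ.box b b' R) = V := by
    rw [vol_box hbb.le hR.le, hV]
  have hN0 : ∀ N ∈ Finset.Ioc X (2 * X), 1 ≤ N ∧ x ≤ (N : ℝ) ∧ (N : ℝ) ≤ 2 * x := by
    intro N hN
    have h1 := Finset.mem_Ioc.1 hN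
    refine ⟨by omega, ?_, ?_⟩
    · rw [hx]; exact_mod_cast h1.1.le
    · rw [hx]; exact_mod_cast h1.2
  have hLN : ∀ N ∈ Finset.Ioc X (2 * X), 2 * (L : ℝ) / (N : ℝ) ^ 2 ≤ 2 / x := by
    intro N hN
    obtain ⟨-, h1, -⟩ := hN0 N hN
    have hNpos : (0 : ℝ) < N := by linarith
    rw [div_le_div_iff₀ (by positivity) hx0]
    nlinarith
  have hle : ∀ S' : Set (ℝ × ℝ), volume.real (Pool.Agent.Helper91K1.PQ.box b b' R ∩ S') ≤ V := by
    intro S'
    rw [← hvol]
    exact measureReal_mono Set.inter_subset_left (box_lt_top b b' R).ne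
  -- first moment
  have hv : ∀ N ∈ Finset.Ioc X (2 * X),
      V * p - 4 * R / x ≤ volume.real (Pool.Agent.Helper91K1.PQ.box b b' R ∩ S N) := by
    intro N hN
    have h1 := (hone b b' R hbb hR L T hL1 hT N (hN0 N hN).1 (g N) (A N)).1 (hA N)
    have h2 : {y ∈ Pool.Agent.Helper91K1.PQ.box b b' R | mm (g N) N y ∈ A N} =
        Pool.Agent.Helper91K1.PQ.box b b' R ∩ S N := by rw [hS]; rfl
    rw [h2, ← hp] at h1
    refine le_trans ?_ h1
    have h3 := hLN N hN
    have h4 : 4 * R / x = 2 * R * (2 / x) := by ring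
    rw [h4, hV]
    nlinarith [mul_le_mul_of_nonneg_left h3 (by positivity : (0 : ℝ) ≤ 2 * R)]
  have hsv : x * (V * p - 4 * R / x) ≤
      ∑ N ∈ Finset.Ioc X (2 * X), volume.real (Pool.Agent.Helper91K1.PQ.box b b' R ∩ S N) := by
    have h1 := Finset.card_nsmul_le_sum (Finset.Ioc X (2 * X)) _ _ hv
    rw [Nat.card_Ioc, nsmul_eq_mul] at h1
    have h2 : 2 * X - X = X := by omega
    rw [h2, ← hx] at h1
    exact h1
  -- second moment
  have hpair := pair_sum X hX
    (fun N M => volume.real (Pool.Agent.Helper91K1.PQ.box b b' R ∩ (S N ∩ S M))) V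
    (p ^ 2 * V + C₂ * η) (4 * L / η * (V + C₂)) (by positivity) (by positivity)
    (fun N _ => hle _) (by
      intro N hN M hM hne
      obtain ⟨hN1, hxN, hN2⟩ := hN0 N hN
      obtain ⟨hM1, hxM, hM2⟩ := hN0 M hM
      have hNpos : (0 : ℝ) < N := by linarith
      have hMpos : (0 : ℝ) < M := by linarith
      have hD : (0 : ℝ) < |(M : ℝ) - N| := abs_pos.2 (sub_ne_zero.2 (by exact_mod_cast hne))
      have h1 := htwo b b' R η hbb hR hη0 L T hL1 hT N M hN1 hM1 (Ne.symm hne) (g N) (g M) (A N) (A M)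
        (hsub M)
      have h2 : {y ∈ Pool.Agent.Helper91K1.PQ.box b b' R | mm (g N) N y ∈ A N ∧ mm (g M) M y ∈ A M} =
        Pool.Agent.Helper91K1.PQ.box b b' R ∩ (S N ∩ S M) := by rw [hS]; rfl
      rw [h2, ← hp] at h1
      have hηN : 0 < η / N := by positivity
      have h3 := (hone (b - η / N) b' (R + η) (by linarith) (by linarith) L T hL1 hT N hN1 (g N)
        (A N)).2 (hsub N)
      rw [← hp] at h3
      have hηN2 : η / N ≤ η := div_le_self hη0.le (by linarith)
      have h4 : 2 * (R + η) * ((b' - (b - η / N)) * p + 2 * L / (N : ℝ) ^ 2) ≤ V * p + C₂ * η := by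
        have h5 : 2 * (L : ℝ) / (N : ℝ) ^ 2 ≤ 2 * η := by
          refine (hLN N hN).trans ?_
          rw [div_le_iff₀ hx0]
          nlinarith
        have h6 : (b' - (b - η / N)) * p + 2 * L / (N : ℝ) ^ 2 ≤ (b' - b) * p + 3 * η := by
          nlinarith [mul_le_mul hηN2 hp1 hp0.le hη0.le]
        calc 2 * (R + η) * ((b' - (b - η / N)) * p + 2 * L / (N : ℝ) ^ 2)
            ≤ 2 * (R + η) * ((b' - b) * p + 3 * η) :=
              mul_le_mul_of_nonneg_left h6 (by positivity)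
          _ = 2 * R * (b' - b) * p + (2 * (b' - b) * p + 6 * (R + η)) * η := by ring
          _ ≤ 2 * R * (b' - b) * p + (2 * (b' - b) + 6 * (R + 1)) * η := by
              have : 2 * (b' - b) * p + 6 * (R + η) ≤ 2 * (b' - b) + 6 * (R + 1) := by nlinarith
              nlinarith [mul_le_mul_of_nonneg_right this hη0.le]
          _ = V * p + C₂ * η := by rw [hV, hC₂]
      have h7 : 2 * (L : ℝ) * N / (η * M * |(M : ℝ) - N|) ≤ 4 * L / η * (1 / |(M : ℝ) - N|) := by
        have h8 : 4 * (L : ℝ) / η * (1 / |(M : ℝ) - N|) = 2 * L * (2 * M) / (η * M * |(M : ℝ) - N|) := by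
          field_simp
          ring
        rw [h8]
        refine div_le_div_of_nonneg_right ?_ (by positivity)
        refine mul_le_mul_of_nonneg_left ?_ (by positivity)
        linarith
      have h9 : 0 ≤ 4 * (L : ℝ) / η * (1 / |(M : ℝ) - N|) := by positivity
      have h10 : V * p + C₂ * η ≤ V + C₂ := by nlinarith
      calc volume.real (Pool.Agent.Helper91K1.PQ.box b b' R ∩ (S N ∩ S M)) ≤ _ := h1
        _ ≤ (p + 4 * L / η * (1 / |(M : ℝ) - N|)) * (V * p + C₂ * η) := by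
            refine mul_le_mul (by linarith) (h3.trans h4) measureReal_nonneg (by positivity)
        _ = p * (V * p + C₂ * η) + 4 * L / η * (1 / |(M : ℝ) - N|) * (V * p + C₂ * η) := by ring
        _ ≤ (p ^ 2 * V + C₂ * η) + 4 * L / η * (1 / |(M : ℝ) - N|) * (V + C₂) := by
            refine add_le_add ?_ (mul_le_mul_of_nonneg_left h10 h9)
            have : p * (C₂ * η) ≤ C₂ * η := mul_le_of_le_one_left (by positivity) hp1
            nlinarith
        _ = _ := by ring)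
  have hch := cheb b b' R (Finset.Ioc X (2 * X)) S hSm (p * x) (ρ / 2 * x) (by positivity)
  rw [hvol] at hch
  have hlast : x * (4 * L / η * (V + C₂) * (2 * (1 + Real.log X))) ≤
      8 * (V + C₂) * (1 + 4 / κ) * (x ^ 2 * η) := by
    have h1 : (L : ℝ) / η ≤ x * η ^ 3 := by
      rw [div_le_iff₀ hη0]
      calc (L : ℝ) ≤ x * η ^ 4 := hLx
        _ = x * η ^ 3 * η := by ring
    have h2 : (L : ℝ) / η * (1 + Real.log X) ≤ x * η * (1 + 4 / κ) := by
      calc (L : ℝ) / η * (1 + Real.log X) ≤ x * η ^ 3 * (1 + Real.log X) :=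
            mul_le_mul_of_nonneg_right h1 hlog0
        _ = x * η ^ 2 * ((1 + Real.log X) * η) := by ring
        _ ≤ x * η ^ 2 * (1 + 4 / κ) := mul_le_mul_of_nonneg_left hlog (by positivity)
        _ ≤ x * η * (1 + 4 / κ) := by
            refine mul_le_mul_of_nonneg_right ?_ (by positivity)
            refine mul_le_mul_of_nonneg_left ?_ hx0.le
            nlinarith
    calc x * (4 * L / η * (V + C₂) * (2 * (1 + Real.log X)))
        = 8 * (V + C₂) * x * ((L : ℝ) / η * (1 + Real.log X)) := by ring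
      _ ≤ 8 * (V + C₂) * x * (x * η * (1 + 4 / κ)) := mul_le_mul_of_nonneg_left h2 (by positivity)
      _ = _ := by ring
  have hfinal : (ρ / 2 * x) ^ 2 * volume.real {y ∈ Pool.Agent.Helper91K1.PQ.box b b' R |
      ρ / 2 * x ≤ p * x - ∑ N ∈ Finset.Ioc X (2 * X), (S N).indicator (fun _ => (1 : ℝ)) y} ≤
      K * (x ^ 2 * η) := by
    refine hch.trans ?_
    have h1 : (2 * (p * x)) * (x * (V * p - 4 * R / x)) ≤ 2 * (p * x) *
        ∑ N ∈ Finset.Ioc X (2 * X), volume.real (Pool.Agent.Helper91K1.PQ.box b b' R ∩ S N) :=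
      mul_le_mul_of_nonneg_left hsv (by positivity)
    have h2 : (2 * (p * x)) * (x * (V * p - 4 * R / x)) = 2 * p ^ 2 * x ^ 2 * V - 8 * p * R * x := by
      field_simp
      ring
    rw [h2] at h1
    rw [← hx] at hpair
    have h3 : x ≤ x ^ 2 * η := by nlinarith
    have h4 : 8 * p * R * x ≤ 8 * R * (x ^ 2 * η) := by
      calc 8 * p * R * x = 8 * R * x * p := by ring
        _ ≤ 8 * R * x * 1 := mul_le_mul_of_nonneg_left hp1 (by positivity)
        _ = 8 * R * x := by ring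
        _ ≤ _ := mul_le_mul_of_nonneg_left h3 (by positivity)
    have h5 : x * V ≤ V * (x ^ 2 * η) := by nlinarith
    rw [← hx] at hlast
    rw [hK]
    nlinarith
  have hmono : volume.real {y ∈ Pool.Agent.Helper91K1.PQ.box b b' R |
      ({N ∈ (Finset.Ioc X (2 * X) : Set ℕ) | mm (g N) N y ∈ A N}.ncard : ℝ) < ρ / 2 * X} ≤
      volume.real {y ∈ Pool.Agent.Helper91K1.PQ.box b b' R |
      ρ / 2 * x ≤ p * x - ∑ N ∈ Finset.Ioc X (2 * X), (S N).indicator (fun _ => (1 : ℝ)) y} := by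
    refine measureReal_mono ?_ ((measure_mono (fun y hy => hy.1)).trans_lt (box_lt_top b b' R)).ne
    rintro y ⟨hy, hy2⟩
    refine ⟨hy, ?_⟩
    have h1 : ({N ∈ (Finset.Ioc X (2 * X) : Set ℕ) | mm (g N) N y ∈ A N}.ncard : ℝ) =
        ∑ N ∈ Finset.Ioc X (2 * X), (S N).indicator (fun _ => (1 : ℝ)) y := by
      classical
      have h2 : {N ∈ (Finset.Ioc X (2 * X) : Set ℕ) | mm (g N) N y ∈ A N} =
          ((Finset.Ioc X (2 * X)).filter (fun N => mm (g N) N y ∈ A N) : Set ℕ) := by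
        ext N
        simp
      rw [h2, Set.ncard_coe_finset, Finset.card_filter]
      push_cast
      refine Finset.sum_congr rfl fun N _ => ?_
      rw [hS, Set.indicator_apply]
      rfl
    rw [h1, ← hx] at hy2
    nlinarith
  have hρx : 0 < (ρ / 2 * x) ^ 2 := by positivity
  have h8 : volume.real {y ∈ Pool.Agent.Helper91K1.PQ.box b b' R |
      ρ / 2 * x ≤ p * x - ∑ N ∈ Finset.Ioc X (2 * X), (S N).indicator (fun _ => (1 : ℝ)) y} ≤
      4 * K / ρ ^ 2 * η := by
    rw [← mul_le_mul_iff_right₀ hρx]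
    refine hfinal.trans (le_of_eq ?_)
    field_simp
    ring
  refine (hmono.trans h8).trans ?_
  refine mul_le_mul_of_nonneg_left ?_ (by positivity)
  rw [hη, ← hx]
  exact Real.rpow_le_rpow_of_exponent_le hx1 (by linarith)

end Pool.Agent.Helper11X.PQ
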